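import Mathlib

set_option autoImplicit false

namespace Pool.Agent.L7h14.Occ

open Finset

/-- Sum of `g (c + |I|)` over the independent sets of `{0, …, m-1}` avoiding the mask `F`. -/
def T (A : ℕ → ℕ) (g : ℕ → ℕ) : ℕ → ℕ → ℕ → ℕ
  | 0, _, c => g c
  | m + 1, F, c => T A g m F c + (if F.testBit m then 0 else T A g m (F ||| A m) (c + 1))

/-- `I` is independent for the adjacency masks `A`. -/
def Ind (A : ℕ → ℕ) (I : Finset ℕ) : Prop := ∀ i ∈ I, ∀ j ∈ I, (A i).testBit j = false

def Free (F : ℕ) (I : Finset ℕ) : Prop := ∀ i ∈ I, F.testBit i = false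

open Classical in
lemma T_eq (A : ℕ → ℕ) (g : ℕ → ℕ) (n : ℕ)
    (hs : ∀ i < n, ∀ j < n, (A i).testBit j = (A j).testBit i)
    (hi : ∀ i < n, (A i).testBit i = false) :
    ∀ m ≤ n, ∀ F c, T A g m F c =
      ∑ I ∈ (range m).powerset, if Ind A I ∧ Free F I then g (c + I.card) else 0 := by
  intro m
  induction m with
  | zero =>
    intro _ F c
    simp [T, Ind, Free]
  | succ m ih =>
    intro hm F c
    have hm' : m ≤ n := by omega
    rw [T, ih hm' F c, Finset.range_add_one, Finset.sum_powerset_insert (by simp)]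
    congr 1
    by_cases hF : F.testBit m
    · rw [if_pos hF]
      symm
      apply Finset.sum_eq_zero
      intro I hI
      rw [if_neg]
      rintro ⟨-, h2⟩
      have := h2 m (by simp)
      rw [hF] at this
      exact absurd this (by simp)
    · rw [if_neg hF, ih hm']
      apply Finset.sum_congr rfl
      intro I hI
      rw [Finset.mem_powerset] at hI
      have hlt : ∀ i ∈ I, i < m := fun i hi' => Finset.mem_range.1 (hI hi')
      have hmI : m ∉ I := fun h => absurd (hlt m h) (lt_irrefl m)
      have hiff : (Ind A I ∧ Free (F ||| A m) I) ↔ (Ind A (insert m I) ∧ Free F (insert m I)) := by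
        constructor
        · rintro ⟨h1, h2⟩
          have h3 : ∀ i ∈ I, F.testBit i = false ∧ (A m).testBit i = false := by
            intro i hi'
            have := h2 i hi'
            rw [Nat.testBit_or, Bool.or_eq_false_iff] at this
            exact this
          refine ⟨?_, ?_⟩
          · intro i hi' j hj
            rw [Finset.mem_insert] at hi' hj
            rcases hi' with rfl | hi' <;> rcases hj with rfl | hj
            · exact hi _ (by omega)
            · exact (h3 j hj).2
            · rw [hs _ (by have := hlt i hi'; omega) _ (by omega)]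
              exact (h3 i hi').2
            · exact h1 i hi' j hj
          · intro i hi'
            rw [Finset.mem_insert] at hi'
            rcases hi' with rfl | hi'
            · simpa using hF
            · exact (h3 i hi').1
        · rintro ⟨h1, h2⟩
          refine ⟨fun i hi' j hj => h1 i (Finset.mem_insert_of_mem hi') j
            (Finset.mem_insert_of_mem hj), fun i hi' => ?_⟩
          rw [Nat.testBit_or, Bool.or_eq_false_iff]
          exact ⟨h2 i (Finset.mem_insert_of_mem hi'), h1 m (Finset.mem_insert_self _ _) i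
            (Finset.mem_insert_of_mem hi')⟩
      rw [Finset.card_insert_of_notMem hmI]
      by_cases hc : Ind A I ∧ Free (F ||| A m) I
      · rw [if_pos hc, if_pos (hiff.1 hc)]
        congr 1
        omega
      · rw [if_neg hc, if_neg (fun h => hc (hiff.2 h))]

/-- Sums over the independent sets of a graph whose vertices are numbered by `e`. -/
lemma sum_eq {V : Type} [Fintype V] {n : ℕ} (A : ℕ → ℕ) (e : V ↪ ℕ) (he : ∀ v, e v < n)
    (hsu : ∀ k < n, ∃ v, e v = k) (G : SimpleGraph V)
    (hG : ∀ i j : V, G.Adj i j ↔ (A (e i)).testBit (e j) = true)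
    (hs : ∀ i < n, ∀ j < n, (A i).testBit j = (A j).testBit i)
    (hi : ∀ i < n, (A i).testBit i = false) (g : ℕ → ℕ) (f : ℕ → ℝ) (hf : ∀ c, f c = g c)
    (inst : ∀ I : Finset V, Decidable (G.IsIndepSet (I : Set V))) :
    (∑ I : Finset V, if G.IsIndepSet (I : Set V) then f I.card else 0) =
      ((T A g n 0 0 : ℕ) : ℝ) := by
  classical
  have h1 := T_eq A g n hs hi n le_rfl 0 0
  rw [h1, Nat.cast_sum]
  refine Finset.sum_bij (fun I _ => I.map e) ?_ ?_ ?_ ?_
  · intro I _
    rw [Finset.mem_powerset]
    intro x hx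
    rw [Finset.mem_map] at hx
    obtain ⟨y, _, rfl⟩ := hx
    simpa using he y
  · intro I _ J _ h
    exact Finset.map_injective _ h
  · intro J hJ
    rw [Finset.mem_powerset] at hJ
    refine ⟨Finset.univ.filter (fun i : V => e i ∈ J), Finset.mem_univ _, ?_⟩
    ext x
    simp only [Finset.mem_map, Finset.mem_filter, Finset.mem_univ, true_and]
    constructor
    · rintro ⟨y, hy, rfl⟩
      exact hy
    · intro hx
      obtain ⟨v, hv⟩ := hsu x (Finset.mem_range.1 (hJ hx))
      exact ⟨v, by rw [hv]; exact hx, hv⟩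
  · intro I _
    have hiff : G.IsIndepSet (I : Set V) ↔
        (Ind A (I.map e) ∧ Free 0 (I.map e)) := by
      constructor
      · intro h
        refine ⟨?_, ?_⟩
        · intro i hi' j hj
          rw [Finset.mem_map] at hi' hj
          obtain ⟨a, ha, rfl⟩ := hi'
          obtain ⟨b, hb, rfl⟩ := hj
          by_cases hab : a = b
          · subst hab
            exact hi _ (he a)
          · have h3 : ¬ G.Adj a b := h ha hb hab
            rw [hG] at h3
            simpa using h3
        · intro i _
          simp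
      · rintro ⟨h, -⟩
        intro a ha b hb hab
        rw [hG]
        have := h (e a) (Finset.mem_map.2 ⟨a, ha, rfl⟩) (e b) (Finset.mem_map.2 ⟨b, hb, rfl⟩)
        rw [this]
        simp
    rw [Finset.card_map, zero_add]
    by_cases hc : G.IsIndepSet (I : Set V)
    · rw [if_pos hc, if_pos (hiff.1 hc), hf]
    · rw [if_neg hc, if_neg (fun h => hc (hiff.2 h)), Nat.cast_zero]

/-- The graph on `Fin n` with adjacency masks `A`. -/
def mk (n : ℕ) (A : ℕ → ℕ)
    (hs : ∀ i < n, ∀ j < n, (A i).testBit j = (A j).testBit i)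
    (hi : ∀ i < n, (A i).testBit i = false) : SimpleGraph (Fin n) where
  Adj i j := (A i).testBit j = true
  symm := ⟨fun i j h => by rw [hs _ j.2 _ i.2]; exact h⟩
  loopless := ⟨fun i h => by have := hi i i.2; rw [this] at h; exact absurd h (by simp)⟩

def A20 (i : ℕ) : ℕ := [12552, 394368, 200720, 16577, 532612, 659520, 327720, 538, 164353, 82304,
  22530, 107520, 1061, 264209, 525832, 788736, 2628, 294, 41026, 49200].getD i 0

def A19 (i : ℕ) : ℕ := [71808, 2824, 1584, 196626, 266252, 73988, 21760, 393473, 226, 49158, 133188,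
  9219, 32849, 296992, 328256, 143872, 16425, 33928, 24720].getD i 0

def A13 (i : ℕ) : ℕ := [4386, 581, 1162, 2324, 4648, 1105, 2210, 4420, 649, 1298, 2596, 5192,
  2193].getD i 0

lemma hs20 : ∀ i < 20, ∀ j < 20, (A20 i).testBit j = (A20 j).testBit i := by decide +kernel
lemma hi20 : ∀ i < 20, (A20 i).testBit i = false := by decide +kernel
lemma hs19 : ∀ i < 19, ∀ j < 19, (A19 i).testBit j = (A19 j).testBit i := by decide +kernel
lemma hi19 : ∀ i < 19, (A19 i).testBit i = false := by decide +kernel
lemma hs13 : ∀ i < 13, ∀ j < 13, (A13 i).testBit j = (A13 j).testBit i := by decide +kernel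
lemma hi13 : ∀ i < 13, (A13 i).testBit i = false := by decide +kernel

/-- The counterexample. -/
def G20 : SimpleGraph (Fin 20) := mk 20 A20 hs20 hi20

/-- The Robertson graph. -/
def G19 : SimpleGraph (Fin 19) := mk 19 A19 hs19 hi19

instance : DecidableRel G20.Adj := fun i j => inferInstanceAs (Decidable ((A20 i).testBit j = true))
instance : DecidableRel G19.Adj := fun i j => inferInstanceAs (Decidable ((A19 i).testBit j = true))

lemma T20 : T A20 (fun c => 2 ^ c) 20 0 0 = 72225 := by decide +kernel
lemma T20' : T A20 (fun c => c * 2 ^ c) 20 0 0 = 359800 := by decide +kernel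
lemma T13 : T A13 (fun c => 2 ^ c) 13 0 0 = 1483 := by decide +kernel
lemma T13' : T A13 (fun c => c * 2 ^ c) 13 0 0 = 4810 := by decide +kernel

lemma reg20 : ∀ v : Fin 20, G20.degree v = 4 := by decide +kernel
lemma reg19 : ∀ v : Fin 19, G19.degree v = 4 := by decide +kernel

lemma free20 : ∀ a b : Fin 20, G20.Adj a b → (A20 a) &&& (A20 b) = 0 := by decide +kernel

lemma free19 : ∀ a b : Fin 19, G19.Adj a b → (A19 a) &&& (A19 b) = 0 := by decide +kernel

/-- two distinct vertices have at most one common neighbour -/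
lemma sq19 : ∀ a b : Fin 19, a ≠ b → ((A19 a) &&& (A19 b)) = 0 ∨
    ∃ c : Fin 19, ((A19 a) &&& (A19 b)) = 2 ^ (c : ℕ) := by decide +kernel

lemma cliqueFree20 : G20.CliqueFree 3 := by
  intro t ht
  rw [SimpleGraph.is3Clique_iff] at ht
  obtain ⟨a, b, c, hab, hac, hbc, -⟩ := ht
  have h := free20 a b hab
  have h1 : ((A20 a) &&& (A20 b)).testBit c = true := by
    rw [Nat.testBit_and, Bool.and_eq_true]
    exact ⟨hac, hbc⟩
  rw [h] at h1
  simp at h1

lemma no_sq19 (a b c d : Fin 19) (hab : G19.Adj a b) (hbc : G19.Adj b c) (hcd : G19.Adj c d)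
    (hda : G19.Adj d a) (hac : a ≠ c) (hbd : b ≠ d) : False := by
  have hb : ((A19 a) &&& (A19 c)).testBit b = true := by
    rw [Nat.testBit_and, Bool.and_eq_true]
    exact ⟨hab, hbc.symm⟩
  have hd : ((A19 a) &&& (A19 c)).testBit d = true := by
    rw [Nat.testBit_and, Bool.and_eq_true]
    exact ⟨hda.symm, hcd⟩
  rcases sq19 a c hac with h | ⟨e, h⟩
  · rw [h] at hb
    simp at hb
  · rw [h, Nat.testBit_two_pow] at hb hd
    simp only [decide_eq_true_eq] at hb hd
    exact hbd (Fin.ext (hb.symm.trans hd))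

lemma no_tri19 (a b c : Fin 19) (hab : G19.Adj a b) (hbc : G19.Adj b c) (hca : G19.Adj c a) :
    False := by
  have h := free19 a b hab
  have h1 : ((A19 a) &&& (A19 b)).testBit c = true := by
    rw [Nat.testBit_and, Bool.and_eq_true]
    exact ⟨hca.symm, hbc⟩
  rw [h] at h1
  simp at h1

lemma egirth19 : (5 : ℕ∞) ≤ G19.egirth := by
  rw [SimpleGraph.le_egirth]
  intro a w hw
  by_contra hlt
  rw [not_le] at hlt
  have h3 := hw.three_le_length
  have hlt' : w.length < 5 := by exact_mod_cast hlt
  have hnd := hw.support_nodup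
  match w, h3, hlt', hnd with
  | .cons h1 (.cons h2 (.cons h3 .nil)), _, _, _ => exact no_tri19 _ _ _ h1 h2 h3
  | .cons h1 (.cons h2 (.cons h3 (.cons h4 .nil))), _, _, hn =>
    simp only [SimpleGraph.Walk.support_cons, SimpleGraph.Walk.support_nil, List.tail_cons,
      List.nodup_cons, List.mem_cons, List.not_mem_nil, or_false, not_or] at hn
    exact no_sq19 _ _ _ _ h1 h2 h3 h4 (fun h => hn.2.1.2 h.symm) hn.1.2.1

/-- The circulant graph on `ZMod 13` with jumps `±1, ±5`. -/
lemma adj13 : ∀ i j : ZMod 13,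
    (i ≠ j ∧ ((i - j = 1 ∨ i - j = 5) ∨ (j - i = 1 ∨ j - i = 5))) ↔
      (A13 i.val).testBit j.val = true := by
  decide +kernel

def e13 : ZMod 13 ↪ ℕ := ⟨ZMod.val, ZMod.val_injective 13⟩

lemma e13_lt (v : ZMod 13) : e13 v < 13 := ZMod.val_lt v

lemma e13_surj : ∀ k < 13, ∃ v, e13 v = k := fun k hk => ⟨(k : ZMod 13), ZMod.val_cast_of_lt hk⟩

end Pool.Agent.L7h14.Occ
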